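import Pool.Agent.Q171.ND3.Pe

/-!
# The New Doomsday Conjecture for families and for bidegrees

`Ext s` is the Adams `s`-line: the cohomology of the cobar complex of the mod 2 dual Steenrod algebra
`𝔽₂[ξ₁, ξ₂, …]`. `fam s j y` is the `j`-th member `(Sq⁰)^j y` of the `Sq⁰`-family of `y`.

`Survivors` are sets `perm s`, `surv s` of classes with two properties of the permanent cycles and of
the surviving classes of the Adams spectral sequence: a surviving class is a nonzero permanent cycle,
and a nonzero permanent cycle in `Ext^{s,t}` which does not survive is hit by a differential `d_r`,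
`r ≥ 2`, so that `Ext^{s-r,t-r+1}` is not zero.

For `s, t ≥ 1` the following are equivalent:

* each `Sq⁰`-family in the bidegrees `(s, 2^i t)`, `i ≥ 0`, has only finitely many surviving members;
* only finitely many of the groups `Ext^{s,2^j t}`, `j ≥ 0`, contain a nonzero permanent cycle.

The proof shows that for large `j` (depending only on `s`) the groups `Ext^{s-r,2^j t-r+1}`, `r ≥ 2`,
are zero, so that nothing in `Ext^{s,2^j t}` is hit by a differential, and that `Sq⁰` maps
`Ext^{s,2^j t}` onto `Ext^{s,2^(j+1) t}`, so that these finite groups consist of the members of finitely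
many families.
-/

set_option autoImplicit false

namespace Pool.Agent.Results.MP_701abf_gt.FamiliesAndBidegrees

open Pool.Agent.Q171.ND3.St

/-- For `s, t ≥ 1`: each `Sq⁰`-family in the bidegrees `(s, 2^i t)` has only finitely many surviving
members if and only if only finitely many of the groups `Ext^{s,2^j t}` contain a nonzero permanent
cycle. -/
theorem result (s t : ℕ) (hs : 1 ≤ s) (ht : 1 ≤ t) (A : Survivors) :
    (∀ (i : ℕ) (x : Ext s), IsDeg s (2 ^ i * t) x → {j | fam s j x ∈ A.surv s}.Finite) ↔
      {j | ∃ y : Ext s, IsDeg s (2 ^ j * t) y ∧ y ≠ 0 ∧ y ∈ A.perm s}.Finite := by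
  obtain ⟨J, hJ⟩ := doom s hs
  refine ⟨fun h => (hJ A t ht).mp (h J), fun h i x hx => ?_⟩
  have h3 : {j | fam s j x ∈ A.surv s} ⊆ (fun j => j + i) ⁻¹'
      {j | ∃ y : Ext s, IsDeg s (2 ^ j * t) y ∧ y ≠ 0 ∧ y ∈ A.perm s} := by
    intro j hj
    obtain ⟨h5, h6⟩ := A.of_surv _ _ hj
    refine ⟨fam s j x, ?_, h6, h5⟩
    rw [show 2 ^ (j + i) * t = 2 ^ j * (2 ^ i * t) by rw [pow_add]; ring]
    exact fam_deg hx j
  exact (h.preimage (fun a _ b _ e => by simpa using e)).subset h3

end Pool.Agent.Results.MP_701abf_gt.FamiliesAndBidegrees
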