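import Pool.Agent.Q171.ND3.En

/-!
# The third Adams differential on the `Sq⁰`-families in the image of `Sq¹`

`Ext s` is the Adams `s`-line: the cohomology of the cobar complex of the mod 2 dual Steenrod algebra
`𝔽₂[ξ₁, ξ₂, …]`, with the coproduct `ξ_n ↦ ∑ᵢ ξ_{n-i} ^ (2 ^ i) ⊗ ξᵢ`. `Sq0` is the operation `Sq⁰`, induced
by the squaring of cochains, `h i` is the multiplication by `h_i`, and `Sq k` is the operation `Sq^k` on
cocycles (the cup-`(s-k)` square).

`Diffs` are maps `d₂`, `d₃` (with values in representatives) with properties of the differentials of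
the Adams spectral sequence of the sphere: `d₂` is linear and has the right bidegree, `d₂ d₂ = 0`, `d₂`
commutes with the multiplication by `h₀`,

* `d₂ (Sq⁰ x) = h₀ Sq¹ x` and
* `d₃ (Sq⁰ Sq¹ x) = d₃ (Sq¹ Sq⁰ x) = Sq² (d₂ (Sq⁰ x)) = Sq² (h₀ Sq¹ x) = h₁ Sq² Sq¹ x`

for classes `x` of even internal degree (Bruner, *H_∞ ring spectra*, VI.1).

For every `s` there is a number `J` such that for all classes `x` on the `s`-line the members
`y_j = (Sq⁰)^j (Sq¹ x)`, `j ≥ J`, of the `Sq⁰`-family of `Sq¹ x` are killed by `d₂`, and `d₃ (y_j)` vanishes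
in `Ext^(s+4)` modulo the image of `d₂` if and only if `(Sq⁰)^J (Sq² Sq¹ x) = 0`. In particular no `y_j`
with `j ≥ J` survives if `Sq² Sq¹ x` is not killed by a power of `Sq⁰`.

The main step: in highly divisible degrees `h₁ Sq⁰ z = h₀² v` implies `z = 0` and `v = 0`.
-/

set_option autoImplicit false

namespace Pool.Agent.Results.MP_701abf_gt.ThirdDifferential

open Pool.Agent.Q171.ND3.St

/-- For every `s` there is a `J` such that the following holds for all `d₂`, `d₃` with the properties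
`Diffs`, all homogeneous cocycles `x` of degree `s` and all `j ≥ J`: the class
`y_j = (Sq⁰)^j (Sq¹ x)` satisfies `d₂ (y_j) = 0`, and `d₃ (y_j) = 0` modulo the image of `d₂` if and
only if `(Sq⁰)^J (Sq² Sq¹ x) = 0`. -/
theorem result (s : ℕ) : ∃ J : ℕ, ∀ (D : Diffs) (t : ℕ) (x : Cocycle s), IsHom t x.val →
    ∀ j, J ≤ j → D.d₂ (s + 1) (fam (s + 1) j (x.Sq 1).cls) = 0 ∧
      (D.Survives₄ (s + 1) (fam (s + 1) j (x.Sq 1).cls) ↔
        fam (s + 3) J ((x.Sq 1).Sq 2).cls = 0) :=
  third s

end Pool.Agent.Results.MP_701abf_gt.ThirdDifferential
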